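import Mathlib
import Pool.Agent.Lib.MP_ae5b4e_an.Birk.Final3

/-!
# MP_ae5b4e_an: the Birkhoff case, foliated up to a leaf of `3`-periodic triangles

Let `O` be the origin and `e(t) = (cos t, sin t)`.  The curve `γ` is `{e(t) / h(t)}` with a `C²`
function `h` of period `2π` and `h + h'' > 0` (that is, `γ` is strictly convex with positive
curvature).  The leaves `L_c = {e(φ) / P(c, φ)}`, `0 < c < 1`, form a `C¹` family; the tangent line
of `γ` at the point `e(t) / h(t)` meets `L_c` in the two points which are seen from `O` under the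
angles `t + D(c, t)` and `t - D(c, t)`.  So the involution `σ_p` of the tangent line at `p`
exchanges the points which are seen from `O` under equal angles with the ray `O p`; it is the
projective involution given by the reflection law of the ordinary billiard in the polar dual of
`γ`.  `D` increases with `c` and tends to `0` as `c → 0`.

If one leaf `L_{c₀}` consists of vertices of triangles which are inscribed in `L_{c₀}` and
circumscribed about `γ`, then `γ` is an ellipse, and the leaves `L_c`, `0 < c ≤ c₀`, are ellipses of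
the pencil spanned by `γ` and the pair of lines `x² + y² = 0`.  No symmetry is assumed.
-/

noncomputable section

namespace Pool.Agent.Results.MP_ae5b4e_an.ThreePeriodicBirkhoff

open Real Set Filter Topology

/-- The curve with the polar equation `r = 1 / p φ`: the points `z` with
`p φ * z = (cos φ, sin φ)` for some `φ`. -/
def curve (p : ℝ → ℝ) : Set (ℝ × ℝ) :=
  {z | ∃ φ, p φ * z.1 = cos φ ∧ p φ * z.2 = sin φ}

/-- The tangent line of `curve h` at the point `(cos t, sin t) / h t` consists of the points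
`r * (cos (t + δ), sin (t + δ))` with `r * tangentPolar h t δ = 1`. -/
def tangentPolar (h : ℝ → ℝ) (t δ : ℝ) : ℝ := h t * cos δ + deriv h t * sin δ

/-- The conic `(1 - o1 x - o2 y)² = a x² + 2 b x y + d y²`. -/
def conic (o1 o2 a b d : ℝ) : Set (ℝ × ℝ) :=
  {z | (1 - (o1 * z.1 + o2 * z.2)) ^ 2 = a * z.1 ^ 2 + 2 * b * (z.1 * z.2) + d * z.2 ^ 2}

theorem result (h : ℝ → ℝ) (P D : ℝ → ℝ → ℝ) (c₀ : ℝ) (hc₀ : c₀ ∈ Ioo (0 : ℝ) 1)
    -- the curve `γ`
    (h_smooth : ContDiff ℝ 2 h)
    (h_periodic : ∀ t, h (t + 2 * π) = h t)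
    (h_convex : ∀ t, 0 < h t + deriv (deriv h) t)
    -- the family of leaves and of the half angles
    (P_smooth : ContDiffOn ℝ 1 (fun q : ℝ × ℝ => P q.1 q.2) (Ioo 0 1 ×ˢ univ))
    (P_periodic : ∀ c ∈ Ioo (0 : ℝ) 1, ∀ φ, P c (φ + 2 * π) = P c φ)
    (D_smooth : ContDiffOn ℝ 1 (fun q : ℝ × ℝ => D q.1 q.2) (Ioo 0 1 ×ˢ univ))
    (D_periodic : ∀ c ∈ Ioo (0 : ℝ) 1, ∀ t, D c (t + 2 * π) = D c t)
    (D_range : ∀ c ∈ Ioo (0 : ℝ) 1, ∀ t, D c t ∈ Ioo 0 (π / 2))
    (D_increasing : ∀ c ∈ Ioo (0 : ℝ) 1, ∀ t, 0 < deriv (fun x => D x t) c)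
    (D_limit : ∀ t, Tendsto (fun c => D c t) (𝓝[>] 0) (𝓝 0))
    -- the tangent line at the angle `t` meets the leaf `c` under the angles `t ± D c t`
    (leaf_right : ∀ c ∈ Ioo (0 : ℝ) 1, ∀ t, P c (t + D c t) = tangentPolar h t (D c t))
    (leaf_left : ∀ c ∈ Ioo (0 : ℝ) 1, ∀ t, P c (t - D c t) = tangentPolar h t (-D c t))
    -- the leaf `c₀` consists of vertices of triangles circumscribed about `γ`: `t, t₂, t₃` are the
    -- angles of the tangency points, and consecutive sides meet on the leaf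
    (triangles : ∀ t, ∃ t₂ t₃, t₂ - D c₀ t₂ = t + D c₀ t ∧ t₃ - D c₀ t₃ = t₂ + D c₀ t₂ ∧
      t + 2 * π - D c₀ t = t₃ + D c₀ t₃) :
    ∃ o1 o2 a b d : ℝ, 0 < a ∧ b ^ 2 < a * d ∧ curve h = conic o1 o2 a b d ∧
      ∀ c ∈ Ioc 0 c₀, ∃ l, 0 < l ∧ l < a ∧ b ^ 2 < (a - l) * (d - l) ∧
        curve (P c) = conic o1 o2 (a - l) b (d - l) := by
  have hd1 : ContDiff ℝ 1 (deriv h) := by
    have := ContDiff.iterate_deriv' 1 1 h_smooth
    simpa using this
  have B : Pool.Agent.MP_ae5b4e_an.Birk.Bir h (deriv h) (deriv (deriv h)) P D :=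
    { h_deriv := fun t => (h_smooth.differentiable two_ne_zero t).hasDerivAt
      h1_deriv := fun t => (hd1.differentiable one_ne_zero t).hasDerivAt
      h2_cont := hd1.continuous_deriv le_rfl
      h_per := h_periodic
      rho_pos := h_convex
      P_smooth := P_smooth
      D_smooth := D_smooth
      P_per := P_periodic
      D_per := D_periodic
      D_mem := D_range
      D_mono := D_increasing
      D_lim := D_limit
      eq_plus := fun c hc t => leaf_right c hc t
      eq_minus := fun c hc t => by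
        rw [leaf_left c hc t, tangentPolar, cos_neg, sin_neg]
        ring }
  obtain ⟨o1, o2, a, b, d, ha, hb, hγ, hL⟩ := B.conic hc₀ triangles
  refine ⟨o1, o2, a, b, d, ha, hb, hγ, fun c hc => ?_⟩
  obtain ⟨l, hl, hl1, hl2, hl3⟩ := hL c hc
  exact ⟨l, hl, by linarith, hl2, hl3⟩

end Pool.Agent.Results.MP_ae5b4e_an.ThreePeriodicBirkhoff
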